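import Mathlib
import Pool.Agent.H248.AP.Nibble

/-!
# Packing progressions of fixed length with distinct differences

`M_k(n) = (1 + o(1)) n k` for every fixed `n`: the progressions `{d, 2d, ..., nd}`, `d = 1, ..., k`,
have pairwise disjoint translates in an interval of length `(1 + o(1)) n k`.
-/

namespace Pool.Agent.Results.MP_687188_co.Packing

open Finset Filter H248.AP

/-- the progression `{d, 2d, ..., nd}` -/
def B (n d : ℕ) : Finset ℤ := (Icc 1 n).image fun i : ℕ => (i : ℤ) * d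

/-- `B n 1, ..., B n k` pack into `{1, ..., m}` -/
def Packs (n k m : ℕ) : Prop :=
  ∃ s : ℕ → ℤ, (∀ d ∈ Icc 1 k, ∀ x ∈ B n d, 1 ≤ s d + x ∧ s d + x ≤ m) ∧
    ∀ d ∈ Icc 1 k, ∀ d' ∈ Icc 1 k, d ≠ d' →
      Disjoint ((B n d).image fun x => s d + x) ((B n d').image fun x => s d' + x)

/-- the least `m` such that `B n 1, ..., B n k` pack into `{1, ..., m}` -/
noncomputable def M (n k : ℕ) : ℕ := sInf {m | Packs n k m}

lemma packs_of {n k m : ℕ} (p : ℕ → ℕ) (h1 : ∀ d ∈ Icc 1 k, p d + (n - 1) * d < m)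
    (h2 : ∀ d ∈ Icc 1 k, ∀ d' ∈ Icc 1 k, d ≠ d' → ∀ i < n, ∀ i' < n,
      p d + i * d ≠ p d' + i' * d') : Packs n k m := by
  refine ⟨fun d => (p d : ℤ) + 1 - d, ?_, ?_⟩
  · intro d hd x hx
    obtain ⟨i, hi, rfl⟩ := Finset.mem_image.1 hx
    rw [Finset.mem_Icc] at hi
    obtain ⟨j, rfl⟩ : ∃ j, i = j + 1 := ⟨i - 1, by omega⟩
    have h := h1 d hd
    have hj : j * d ≤ (n - 1) * d := Nat.mul_le_mul_right _ (by omega)
    have e1 : (p d : ℤ) + 1 - d + ((j + 1 : ℕ) : ℤ) * d = ((p d + j * d + 1 : ℕ) : ℤ) := by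
      push_cast; ring
    simp only
    rw [e1]
    constructor
    · have : 1 ≤ p d + j * d + 1 := by omega
      exact_mod_cast this
    · have : p d + j * d + 1 ≤ m := by omega
      exact_mod_cast this
  · intro d hd d' hd' hne
    rw [Finset.disjoint_left]
    intro y hy hy'
    obtain ⟨x, hx, rfl⟩ := Finset.mem_image.1 hy
    obtain ⟨x', hx', he⟩ := Finset.mem_image.1 hy'
    obtain ⟨i, hi, rfl⟩ := Finset.mem_image.1 hx
    obtain ⟨i', hi', rfl⟩ := Finset.mem_image.1 hx'
    rw [Finset.mem_Icc] at hi hi'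
    obtain ⟨j, rfl⟩ : ∃ j, i = j + 1 := ⟨i - 1, by omega⟩
    obtain ⟨j', rfl⟩ : ∃ j', i' = j' + 1 := ⟨i' - 1, by omega⟩
    apply h2 d hd d' hd' hne j (by omega) j' (by omega)
    have he' : (p d' : ℤ) + j' * d' = (p d : ℤ) + j * d := by
      simp only at he
      push_cast at he
      linarith
    have := he'.symm
    exact_mod_cast this

/-- the counting lower bound -/
lemma le_of_packs {n k m : ℕ} (h : Packs n k m) : n * k ≤ m := by
  obtain ⟨s, h1, h2⟩ := h
  have hB : ∀ d ∈ Icc 1 k, ((B n d).image fun x => s d + x).card = n := by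
    intro d hd
    rw [Finset.mem_Icc] at hd
    rw [Finset.card_image_of_injective _ (add_right_injective _)]
    unfold B
    rw [Finset.card_image_of_injective]
    · simp
    · intro i j hij
      simp only at hij
      have hd0 : (d : ℤ) ≠ 0 := by
        have : 0 < d := by omega
        exact_mod_cast this.ne'
      exact_mod_cast mul_right_cancel₀ hd0 hij
  have hcard : ((Icc 1 k).biUnion fun d => (B n d).image fun x => s d + x).card = n * k := by
    rw [Finset.card_biUnion (fun d hd d' hd' hne => h2 d hd d' hd' hne), Finset.sum_congr rfl hB]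
    simp [mul_comm]
  have hsub : ((Icc 1 k).biUnion fun d => (B n d).image fun x => s d + x) ⊆ Icc (1 : ℤ) m := by
    intro y hy
    obtain ⟨d, hd, hy⟩ := Finset.mem_biUnion.1 hy
    obtain ⟨x, hx, rfl⟩ := Finset.mem_image.1 hy
    exact Finset.mem_Icc.2 (h1 d hd x hx)
  have := Finset.card_le_card hsub
  rw [hcard] at this
  simpa using this

/-- The main construction. -/
theorem exists_packing (n E : ℕ) (hn : 0 < n) (hE : 2 ≤ E) :
    ∃ k₀ : ℕ, ∀ k ≥ k₀, Packs n k (n * (k + 2 * (k / E + 1))) := by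
  classical
  set B₀ := 4 * n ^ 2 * (E + 1) with hB₀
  set Q := ∏ j ∈ range n, q B₀ j with hQ
  have hQ0 : 0 < Q := Finset.prod_pos (fun j _ => (q_prime B₀ j).pos)
  set Dn := 8 * n ^ 2 * Q with hDn
  have hDn0 : 0 < Dn := by positivity
  obtain ⟨K₀, hK₀⟩ := nibble_step n E hn hE (1 / (Dn : ℝ)) (by positivity)
  refine ⟨(K₀ + 1) * Dn + 4 * Q + 2, ?_⟩
  intro k hk
  have hkD : K₀ + 1 ≤ k / Dn := by
    rw [Nat.le_div_iff_mul_le hDn0]
    omega
  have hk0 : 0 < k := by omega
  have hDn8 : 2 ≤ Dn := by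
    have h1 : 1 ≤ n ^ 2 * Q := Nat.mul_pos (by positivity) hQ0
    have : Dn = 8 * (n ^ 2 * Q) := by rw [hDn]; ring
    omega
  set K := k / Dn with hK
  have hKk : K < k := Nat.div_lt_self hk0 (by omega)
  obtain ⟨D, p, hD1, hD2, hD3, hD4⟩ := hK₀ k K (by omega) hKk
  -- the remaining differences
  let L := (Icc 1 k) \ D
  have hDsub : D ⊆ Icc 1 k := by
    intro d hd
    have := Finset.mem_Ioc.1 (hD1 hd)
    exact Finset.mem_Icc.2 ⟨by omega, this.2⟩
  have hLc : (L.card : ℝ) ≤ 2 * (k : ℝ) / Dn := by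
    have h1 : L.card + D.card = k := by
      have := Finset.card_sdiff_add_card_eq_card hDsub
      simpa using this
    have h2 : (L.card : ℝ) + D.card = k := by exact_mod_cast h1
    have h3 : (K : ℝ) ≤ (k : ℝ) / Dn := Nat.cast_div_le
    have h4 : (0 : ℝ) < Dn := by exact_mod_cast hDn0
    have h5 : (0 : ℝ) ≤ 1 / (Dn : ℝ) := by positivity
    have h6 : (0 : ℝ) ≤ K := by positivity
    have h7 : (k : ℝ) / Dn = 1 / Dn * k := by ring
    have h8 : 2 * (k : ℝ) / Dn = (k : ℝ) / Dn + (k : ℝ) / Dn := by ring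
    have h9 : (1 - 1 / (Dn : ℝ)) * ((k : ℝ) - K) = k - K - 1 / Dn * k + 1 / Dn * K := by ring
    have h10 : 0 ≤ 1 / (Dn : ℝ) * K := mul_nonneg h5 h6
    linarith
  have hgr : L.card * (n * n) < (k + (k / E + 1)) / Q := by
    have h1 : ((L.card * (n * n) : ℕ) : ℝ) ≤ (k : ℝ) / (4 * Q) := by
      push_cast
      have hn2 : (0 : ℝ) ≤ (n : ℝ) * n := by positivity
      calc (L.card : ℝ) * ((n : ℝ) * n) ≤ 2 * (k : ℝ) / Dn * ((n : ℝ) * n) :=
            mul_le_mul_of_nonneg_right hLc hn2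
        _ = (k : ℝ) / (4 * Q) := by
            rw [hDn]
            have hnr : (n : ℝ) ≠ 0 := by exact_mod_cast hn.ne'
            have hQr : (Q : ℝ) ≠ 0 := by exact_mod_cast hQ0.ne'
            push_cast
            field_simp
            norm_num
    have h2 : L.card * (n * n) ≤ k / (4 * Q) := by
      rw [Nat.le_div_iff_mul_le (by positivity)]
      have h4 : (0 : ℝ) < 4 * (Q : ℝ) := by
        have : (0 : ℝ) < Q := by exact_mod_cast hQ0
        linarith
      rw [le_div_iff₀ h4] at h1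
      exact_mod_cast h1
    have h3 : k / (4 * Q) < k / Q := by
      have hk1 : 1 ≤ k / (4 * Q) := by
        rw [Nat.le_div_iff_mul_le (by positivity)]
        omega
      have e1 : k / (4 * Q) = k / Q / 4 := by rw [mul_comm, Nat.div_div_eq_div_mul]
      omega
    exact lt_of_le_of_lt h2 (lt_of_lt_of_le h3 (Nat.div_le_div_right (Nat.le_add_right _ _)))
  set m := n * (k + 2 * (k / E + 1)) with hm
  set N := k + (k / E + 1) with hN
  obtain ⟨p', hp1, hp2⟩ := greedy n m (N / Q) (fun y => ∃ j < n, q B₀ j ∣ y) L (by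
    intro d hd
    have hdk := (Finset.mem_Icc.1 (Finset.mem_sdiff.1 hd).1)
    obtain ⟨r, hr, hrd⟩ := exists_start B₀ n d
    refine ⟨(range (N / Q)).image (fun t => r + Q * t), ?_, ?_⟩
    · rw [Finset.card_image_of_injective]
      · simp
      · intro a c hac
        simp only at hac
        have : Q * a = Q * c := by omega
        exact Nat.eq_of_mul_eq_mul_left hQ0 this
    · intro s hs i hi
      obtain ⟨t, ht, rfl⟩ := Finset.mem_image.1 hs
      rw [Finset.mem_range] at ht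
      refine ⟨⟨i, hi, ?_⟩, ?_⟩
      · have h1 : q B₀ i ∣ Q * t :=
          (Finset.dvd_prod_of_mem _ (Finset.mem_range.2 hi)).mul_right t
        have h2 : r + Q * t + i * d = (r + i * d) + Q * t := by ring
        rw [h2]
        exact (hrd i hi).add h1
      · have h1 : r + Q * t < N := by
          have h2 : Q * (t + 1) ≤ Q * (N / Q) := Nat.mul_le_mul_left _ ht
          have h3 : Q * (N / Q) ≤ N := Nat.mul_div_le N Q
          have h4 : Q * (t + 1) = Q * t + Q := by ring
          omega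
        have h5 : i * d ≤ (n - 1) * k := Nat.mul_le_mul (by omega) hdk.2
        obtain ⟨n', rfl⟩ : ∃ n', n = n' + 1 := ⟨n - 1, by omega⟩
        simp only [Nat.add_sub_cancel] at h5
        have h6 : n' * k ≤ n' * (k + 2 * (k / E + 1)) := Nat.mul_le_mul_left _ (by omega)
        have h7 : m = n' * (k + 2 * (k / E + 1)) + (k + 2 * (k / E + 1)) := by
          rw [hm]; ring
        omega) hgr
  -- combine
  refine packs_of (fun d => if d ∈ D then p d else p' d) ?_ ?_
  · intro d hd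
    by_cases hdD : d ∈ D
    · simp only [hdD, if_true]
      exact (hD3 d hdD).2
    · simp only [hdD, if_false]
      exact (hp1 d (Finset.mem_sdiff.2 ⟨hd, hdD⟩) (n - 1) (by omega)).2
  · intro d hd d' hd' hne i hi i' hi'
    have hcross : ∀ a ∈ D, ∀ c ∈ L, ∀ i < n, ∀ i' < n, p a + i * a ≠ p' c + i' * c := by
      intro a ha c hc i hi i' hi' heq
      obtain ⟨⟨j, hj, hdvd⟩, -⟩ := hp1 c hc i' hi'
      rw [← heq] at hdvd
      exact (hD3 a ha).1 ⟨i, hi, j, hj, hdvd⟩
    by_cases hdD : d ∈ D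
    · by_cases hdD' : d' ∈ D
      · simp only [hdD, hdD', if_true]
        exact hD4 d hdD d' hdD' hne i hi i' hi'
      · simp only [hdD, hdD', if_true, if_false]
        exact hcross d hdD d' (Finset.mem_sdiff.2 ⟨hd', hdD'⟩) i hi i' hi'
    · by_cases hdD' : d' ∈ D
      · simp only [hdD, hdD', if_true, if_false]
        exact fun h => hcross d' hdD' d (Finset.mem_sdiff.2 ⟨hd, hdD⟩) i' hi' i hi h.symm
      · simp only [hdD, hdD', if_false]
        exact hp2 d (Finset.mem_sdiff.2 ⟨hd, hdD⟩) d' (Finset.mem_sdiff.2 ⟨hd', hdD'⟩) hne i hi i' hi'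

/-- **Main theorem.** For every fixed `n ≥ 1`, `M_k(n) / (n k) → 1` as `k → ∞`. -/
theorem result (n : ℕ) (hn : 1 ≤ n) :
    Tendsto (fun k : ℕ => (M n k : ℝ) / ((n : ℝ) * k)) atTop (nhds 1) := by
  rw [Metric.tendsto_atTop]
  intro ε hε
  obtain ⟨E, hE⟩ := exists_nat_gt (max 2 (4 / ε))
  have hE2 : 2 ≤ E := by
    have : (2 : ℝ) < E := lt_of_le_of_lt (le_max_left _ _) hE
    exact_mod_cast this.le
  have hE4 : 4 / ε < E := lt_of_le_of_lt (le_max_right _ _) hE
  obtain ⟨k₀, hk₀⟩ := exists_packing n E hn hE2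
  obtain ⟨k₁, hk₁⟩ := exists_nat_gt (4 / ε)
  refine ⟨max k₀ (k₁ + 1), ?_⟩
  intro k hk
  have hkk0 : k₀ ≤ k := (le_max_left _ _).trans hk
  have hkk1 : k₁ + 1 ≤ k := (le_max_right _ _).trans hk
  have hP := hk₀ k hkk0
  have hne : {m | Packs n k m}.Nonempty := ⟨_, hP⟩
  have h1 : M n k ≤ n * (k + 2 * (k / E + 1)) := Nat.sInf_le hP
  have h2 : n * k ≤ M n k := le_of_packs (Nat.sInf_mem hne)
  have hnr : (0 : ℝ) < n := by exact_mod_cast hn
  have hkr : (0 : ℝ) < k := by
    have : 0 < k := by omega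
    exact_mod_cast this
  have hEr : (0 : ℝ) < E := by
    have : 0 < E := by omega
    exact_mod_cast this
  have hnk : (0 : ℝ) < (n : ℝ) * k := by positivity
  have h3 : (M n k : ℝ) ≤ (n : ℝ) * (k + 2 * ((k : ℝ) / E + 1)) := by
    have h4 : ((k / E : ℕ) : ℝ) ≤ (k : ℝ) / E := Nat.cast_div_le
    calc (M n k : ℝ) ≤ ((n * (k + 2 * (k / E + 1)) : ℕ) : ℝ) := by exact_mod_cast h1
      _ = (n : ℝ) * (k + 2 * (((k / E : ℕ) : ℝ) + 1)) := by push_cast; ring
      _ ≤ _ := by
          apply mul_le_mul_of_nonneg_left _ hnr.le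
          linarith
  have h5 : ((n : ℝ) * k) ≤ M n k := by exact_mod_cast h2
  rw [Real.dist_eq, abs_lt]
  constructor
  · have : 1 ≤ (M n k : ℝ) / ((n : ℝ) * k) := by rw [one_le_div hnk]; exact h5
    linarith
  · rw [sub_lt_iff_lt_add, div_lt_iff₀ hnk]
    refine lt_of_le_of_lt h3 ?_
    have h6 : 2 * ((k : ℝ) / E) < ε / 2 * k := by
      have h7 : 4 < ε * E := by rwa [div_lt_iff₀' hε] at hE4
      have h8 : (k : ℝ) / E * E = k := by field_simp
      have h9 : 0 < (k : ℝ) / E := by positivity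
      nlinarith
    have h7 : 2 < ε / 2 * k := by
      have h8 : 4 / ε < k := by
        refine lt_trans hk₁ ?_
        have : k₁ < k := by omega
        exact_mod_cast this
      rw [div_lt_iff₀' hε] at h8
      linarith
    nlinarith

end Pool.Agent.Results.MP_687188_co.Packing
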